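import Pool.Agent.Lib.MP_46c8ea_co.Proof

set_option autoImplicit false

namespace Pool.Agent.Lib.MP_46c8ea_co

open Filter

lemma factorial_two_mul_le (m : ℕ) : ((2 * m).factorial : ℝ) ≤ 4 ^ m * (m.factorial : ℝ) ^ 2 := by
  have h := Nat.add_choose_mul_factorial_mul_factorial m m
  have h2 : (m + m).choose m ≤ 2 ^ (m + m) := Nat.choose_le_two_pow (m + m) m
  have h3 : (2 * m).factorial ≤ 4 ^ m * m.factorial ^ 2 := by
    have e : 2 * m = m + m := by ring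
    have e4 : (4 : ℕ) ^ m = 2 ^ (m + m) := by
      rw [← two_mul, pow_mul]; norm_num
    rw [e, ← h, e4, mul_assoc, ← pow_two]
    exact Nat.mul_le_mul_right _ h2
  exact_mod_cast h3

lemma sq_factorial_le (m : ℕ) : (m.factorial : ℝ) * m.factorial ≤ ((2 * m).factorial : ℝ) := by
  have h := Nat.add_choose_mul_factorial_mul_factorial m m
  have h1 : 1 ≤ (m + m).choose m := Nat.choose_pos (by omega)
  have h3 : m.factorial * m.factorial ≤ (2 * m).factorial := by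
    have e : 2 * m = m + m := by ring
    rw [e, ← h, mul_assoc]
    calc m.factorial * m.factorial = 1 * (m.factorial * m.factorial) := by ring
      _ ≤ _ := Nat.mul_le_mul_right _ h1
  exact_mod_cast h3

lemma lower (m : ℕ) (hm : 2 ≤ m) :
    (1 / 2 ^ 18 : ℝ) ^ m / (m.factorial : ℝ) ^ 2 ≤ |B 3 (2 * m + 1)| := by
  rw [exact_formula m hm]
  have hm' : (2 : ℝ) ≤ m := by exact_mod_cast hm
  have h1 : (0 : ℝ) < 2 * m - 1 := by linarith
  rw [abs_of_nonneg (by positivity)]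
  rw [div_le_div_iff₀ (by positivity) (by positivity)]
  have hf := factorial_two_mul_le m
  -- elementary bounds
  have b0 : (m : ℝ) ≤ 2 ^ m := by exact_mod_cast (Nat.lt_two_pow_self (n := m)).le
  have b1 : (m : ℝ) + 1 ≤ 2 ^ m := by exact_mod_cast (Nat.lt_two_pow_self (n := m))
  have b2 : 2 * (m : ℝ) - 1 ≤ 4 ^ m := by
    have : (4 : ℝ) ^ m = 2 ^ m * 2 ^ m := by rw [← mul_pow]; norm_num
    rw [this]
    nlinarith
  have b3 : 2 * (m : ℝ) + 3 ≤ 4 ^ m := by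
    have : (4 : ℝ) ^ m = 2 ^ m * 2 ^ m := by rw [← mul_pow]; norm_num
    rw [this]
    nlinarith
  have b4 : (1024 : ℝ) ≤ 32 ^ m := by
    calc (1024 : ℝ) = 32 ^ 2 := by norm_num
      _ ≤ 32 ^ m := pow_le_pow_right₀ (by norm_num) hm
  have hbound : 1024 * 4 ^ m * (m : ℝ) ^ 2 * ((m : ℝ) + 1) ^ 3 * (2 * m - 1) * (2 * m + 3) *
      ((2 * m).factorial : ℝ) ≤
      32 ^ m * 4 ^ m * (2 ^ m) ^ 2 * (2 ^ m) ^ 3 * 4 ^ m * 4 ^ m *
        (4 ^ m * (m.factorial : ℝ) ^ 2) := by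
    gcongr
  have hpow : (1 / 2 ^ 18 : ℝ) ^ m *
      (32 ^ m * 4 ^ m * (2 ^ m) ^ 2 * (2 ^ m) ^ 3 * 4 ^ m * 4 ^ m * (4 ^ m)) = 1 := by
    have e1 : ((2 : ℝ) ^ m) ^ 2 = 4 ^ m := by rw [← pow_mul, mul_comm, pow_mul]; norm_num
    have e2 : ((2 : ℝ) ^ m) ^ 3 = 8 ^ m := by rw [← pow_mul, mul_comm, pow_mul]; norm_num
    rw [e1, e2, ← mul_pow, ← mul_pow, ← mul_pow, ← mul_pow, ← mul_pow, ← mul_pow, ← mul_pow]
    norm_num
  calc (1 / 2 ^ 18 : ℝ) ^ m * (1024 * 4 ^ m * (m : ℝ) ^ 2 * ((m : ℝ) + 1) ^ 3 * (2 * m - 1) *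
        (2 * m + 3) * ((2 * m).factorial : ℝ))
      ≤ (1 / 2 ^ 18 : ℝ) ^ m * (32 ^ m * 4 ^ m * (2 ^ m) ^ 2 * (2 ^ m) ^ 3 * 4 ^ m * 4 ^ m *
        (4 ^ m * (m.factorial : ℝ) ^ 2)) := by
        apply mul_le_mul_of_nonneg_left hbound (by positivity)
    _ = ((1 / 2 ^ 18 : ℝ) ^ m *
      (32 ^ m * 4 ^ m * (2 ^ m) ^ 2 * (2 ^ m) ^ 3 * 4 ^ m * 4 ^ m * (4 ^ m))) *
        (m.factorial : ℝ) ^ 2 := by ring
    _ = (m.factorial : ℝ) ^ 2 := by rw [hpow, one_mul]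
    _ ≤ 3 * ((m : ℝ) + 2) * (m.factorial : ℝ) ^ 2 := by
        have : (1 : ℝ) ≤ 3 * ((m : ℝ) + 2) := by linarith
        nlinarith [sq_nonneg (m.factorial : ℝ)]

lemma upper (m : ℕ) (hm : 2 ≤ m) :
    |B 3 (2 * m + 1)| ≤ 1 / ((m.factorial : ℝ) * m.factorial) := by
  rw [exact_formula m hm]
  have hm' : (2 : ℝ) ≤ m := by exact_mod_cast hm
  have h1 : (0 : ℝ) < 2 * m - 1 := by linarith
  rw [abs_of_nonneg (by positivity)]
  rw [div_le_div_iff₀ (by positivity) (by positivity)]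
  have hf := sq_factorial_le m
  have h4 : (1 : ℝ) ≤ 4 ^ m := one_le_pow₀ (by norm_num)
  have hb : 3 * ((m : ℝ) + 2) ≤
      1024 * 4 ^ m * (m : ℝ) ^ 2 * ((m : ℝ) + 1) ^ 3 * (2 * m - 1) * (2 * m + 3) := by
    have c1 : (1 : ℝ) ≤ (m : ℝ) ^ 2 := by nlinarith
    have c2 : (1 : ℝ) ≤ ((m : ℝ) + 1) ^ 3 := one_le_pow₀ (by linarith)
    have c3 : (1 : ℝ) ≤ 2 * m - 1 := by linarith
    calc 3 * ((m : ℝ) + 2) ≤ 1024 * 1 * 1 * 1 * 1 * (2 * m + 3) := by linarith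
      _ ≤ _ := by gcongr
  calc 3 * ((m : ℝ) + 2) * ((m.factorial : ℝ) * m.factorial)
      ≤ (1024 * 4 ^ m * (m : ℝ) ^ 2 * ((m : ℝ) + 1) ^ 3 * (2 * m - 1) * (2 * m + 3)) *
        ((2 * m).factorial : ℝ) := by gcongr
    _ = _ := by ring

/-- `|B_3(2m+1)|` is at least `C^m / (m!)^2` for some `C > 0` and all large `m`, and is not at
least `C^m / m!` for all large `m`, whatever `C > 0` is. -/
theorem bounds :
    (∃ C : ℝ, 0 < C ∧ ∀ᶠ m : ℕ in atTop,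
      C ^ m / (Nat.factorial m : ℝ) ^ 2 ≤ |B 3 (2 * m + 1)|) ∧
    ¬ (∃ C : ℝ, 0 < C ∧ ∀ᶠ m : ℕ in atTop,
      C ^ m / (Nat.factorial m : ℝ) ≤ |B 3 (2 * m + 1)|) := by
  constructor
  · refine ⟨1 / 2 ^ 18, by norm_num, ?_⟩
    filter_upwards [eventually_ge_atTop 2] with m hm
    exact lower m hm
  · rintro ⟨C, hC, h⟩
    have hlim := FloorSemiring.tendsto_pow_div_factorial_atTop (1 / C : ℝ)
    have hev : ∀ᶠ m : ℕ in atTop, (1 / C : ℝ) ^ m / (m.factorial : ℝ) < 1 :=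
      hlim.eventually_lt_const (by norm_num)
    obtain ⟨m, h1, h2, h3⟩ := (h.and (hev.and (eventually_ge_atTop 2))).exists
    have h4 := upper m h3
    have hf : (0 : ℝ) < m.factorial := by positivity
    have hCm : (0 : ℝ) < C ^ m := by positivity
    have h5 : C ^ m / (m.factorial : ℝ) ≤ 1 / ((m.factorial : ℝ) * m.factorial) := h1.trans h4
    rw [div_le_div_iff₀ hf (by positivity)] at h5
    rw [one_div, inv_pow, div_lt_one hf] at h2
    have h6 : C ^ m * (m.factorial : ℝ) ≤ 1 := by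
      have : C ^ m * (m.factorial : ℝ) * m.factorial ≤ 1 * m.factorial := by
        linarith
      exact le_of_mul_le_mul_right this hf
    have h7 : 1 < C ^ m * (m.factorial : ℝ) := by
      have := mul_lt_mul_of_pos_left h2 hCm
      rwa [mul_inv_cancel₀ hCm.ne'] at this
    linarith

end Pool.Agent.Lib.MP_46c8ea_co
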