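import Mathlib

set_option autoImplicit false

open Finset

namespace Pool.Agent.Lib.MP_46c8ea_co

/-- The vertex `j(t) = -n + x(1) + ... + x(t)` of the walk with list of steps `x`, started at `-n`. -/
def vertex (n : ℕ) (x : List ℤ) (t : ℕ) : ℤ := -(n : ℤ) + (x.take t).sum

/-- `x = (x(1), ..., x(ν+1))`, `ν ≥ 1`, is an admissible walk from `-n` to `n` all of whose steps are
`-2` or `4`, with exactly `κ` steps equal to `-2`: the steps add up to `2 n`, and none of the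
intermediate vertices `j(1), ..., j(ν)` is `n` or `-n`. -/
def IsWalk (n κ : ℕ) (x : List ℤ) : Prop :=
  2 ≤ x.length ∧ (∀ s ∈ x, s = -2 ∨ s = 4) ∧ x.sum = 2 * (n : ℤ) ∧ x.count (-2) = κ ∧
    ∀ t : ℕ, 1 ≤ t → t < x.length → vertex n x t ≠ n ∧ vertex n x t ≠ -(n : ℤ)

/-- `h₁(x) = ∏_{t=1}^{ν} 1 / (n² - j(t)²)`. -/
noncomputable def h₁ (n : ℕ) (x : List ℤ) : ℝ :=
  ∏ t ∈ Finset.Ico 1 x.length, 1 / ((n : ℝ) ^ 2 - (vertex n x t : ℝ) ^ 2)

/-- `B_κ(n)`, the sum of `h₁(x)` over the (finitely many) walks `x` in `X_n(κ)`. -/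
noncomputable def B (κ n : ℕ) : ℝ := ∑ᶠ x ∈ {x : List ℤ | IsWalk n κ x}, h₁ n x

end Pool.Agent.Lib.MP_46c8ea_co
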