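import Pool.Agent.Lib.MP_46c8ea_co.Defs

set_option autoImplicit false

open Finset

namespace Pool.Agent.Lib.MP_46c8ea_co

/-! ### Lists with prescribed numbers of steps -/

/-- lists with `k` entries `-2` and `q` entries `4` -/
def L : ℕ → ℕ → Finset (List ℤ)
  | 0, 0 => {[]}
  | 0, q + 1 => (L 0 q).image (List.cons 4)
  | k + 1, 0 => (L k 0).image (List.cons (-2))
  | k + 1, q + 1 => (L k (q + 1)).image (List.cons (-2)) ∪ (L (k + 1) q).image (List.cons 4)

lemma mem_L (x : List ℤ) : ∀ k q : ℕ, x ∈ L k q ↔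
    (∀ s ∈ x, s = -2 ∨ s = 4) ∧ x.count (-2) = k ∧ x.count 4 = q := by
  induction x with
  | nil =>
    intro k q
    cases k <;> cases q <;> simp [L]
  | cons a l ih =>
    intro k q
    by_cases ha : a = -2
    · subst ha
      cases k with
      | zero => cases q <;> simp [L]
      | succ k =>
        cases q with
        | zero => simp [L, ih, List.count_cons]
        | succ q => simp [L, ih, List.count_cons]
    · by_cases ha4 : a = 4
      · subst ha4
        cases k with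
        | zero =>
          cases q with
          | zero => simp [L]
          | succ q => simp [L, ih, List.count_cons]
        | succ k =>
          cases q with
          | zero => simp [L]
          | succ q => simp [L, ih, List.count_cons]
      · cases k <;> cases q <;> simp [L, ha, ha4, Ne.symm ha, Ne.symm ha4, eq_comm] 


/-! ### The generating function of completions -/

/-- product of the weights `c` over the intermediate vertices of the walk `x` started at `j` -/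
noncomputable def H (c : ℤ → ℝ) (j : ℤ) (x : List ℤ) : ℝ :=
  ∏ t ∈ Finset.Ico 1 x.length, c (j + (x.take t).sum)

lemma H_cons (c : ℤ → ℝ) (j a : ℤ) (x : List ℤ) (hx : x ≠ []) :
    H c j (a :: x) = c (j + a) * H c (j + a) x := by
  unfold H
  have hlen : 1 ≤ x.length := by
    rcases x with _ | ⟨b, l⟩
    · exact absurd rfl hx
    · simp
  rw [List.length_cons, Finset.prod_Ico_eq_prod_range, Finset.prod_Ico_eq_prod_range]
  have h1 : x.length + 1 - 1 = (x.length - 1) + 1 := by omega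
  rw [h1, Finset.prod_range_succ']
  rw [mul_comm]
  congr 1
  · simp
  · apply Finset.prod_congr rfl
    intro t _
    have : 1 + (t + 1) = (1 + t) + 1 := by ring
    rw [this, List.take_succ_cons, List.sum_cons, add_assoc]

lemma H_nil (c : ℤ → ℝ) (j : ℤ) : H c j [] = 1 := by simp [H]

lemma H_singleton (c : ℤ → ℝ) (j a : ℤ) : H c j [a] = 1 := by simp [H]

noncomputable def Z (c : ℤ → ℝ) (j : ℤ) (k q : ℕ) : ℝ := ∑ x ∈ L k q, H c j x

lemma ne_nil_of_mem_L {k q : ℕ} (h : 0 < k + q) {x : List ℤ} (hx : x ∈ L k q) : x ≠ [] := by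
  rintro rfl
  rw [mem_L] at hx
  simp at hx
  omega

lemma sum_cons (c : ℤ → ℝ) (j a : ℤ) (k q : ℕ) (h : 0 < k + q) :
    ∑ x ∈ (L k q).image (List.cons a), H c j x = c (j + a) * Z c (j + a) k q := by
  rw [Finset.sum_image (by intro x _ y _ hxy; exact (List.cons.inj hxy).2)]
  unfold Z
  rw [Finset.mul_sum]
  apply Finset.sum_congr rfl
  intro x hx
  exact H_cons c j a x (ne_nil_of_mem_L h hx)

lemma Z_zero_zero (c : ℤ → ℝ) (j : ℤ) : Z c j 0 0 = 1 := by simp [Z, L, H_nil]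

lemma Z_zero_one (c : ℤ → ℝ) (j : ℤ) : Z c j 0 1 = 1 := by simp [Z, L, H_singleton]

lemma Z_one_zero (c : ℤ → ℝ) (j : ℤ) : Z c j 1 0 = 1 := by simp [Z, L, H_singleton]

lemma Z_zero_succ (c : ℤ → ℝ) (j : ℤ) (q : ℕ) :
    Z c j 0 (q + 2) = c (j + 4) * Z c (j + 4) 0 (q + 1) := by
  rw [← sum_cons c j 4 0 (q + 1) (by omega)]
  unfold Z
  rw [L]

lemma Z_succ_zero (c : ℤ → ℝ) (j : ℤ) (k : ℕ) :
    Z c j (k + 2) 0 = c (j + (-2)) * Z c (j + (-2)) (k + 1) 0 := by
  rw [← sum_cons c j (-2) (k + 1) 0 (by omega)]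
  unfold Z
  rw [L]

lemma Z_succ_succ (c : ℤ → ℝ) (j : ℤ) (k q : ℕ) :
    Z c j (k + 1) (q + 1) = c (j + (-2)) * Z c (j + (-2)) k (q + 1) +
      c (j + 4) * Z c (j + 4) (k + 1) q := by
  rw [← sum_cons c j (-2) k (q + 1) (by omega), ← sum_cons c j 4 (k + 1) q (by omega)]
  unfold Z
  rw [L, Finset.sum_union]
  rw [Finset.disjoint_left]
  intro x hx hy
  simp only [Finset.mem_image] at hx hy
  obtain ⟨u, _, rfl⟩ := hx
  obtain ⟨v, _, hv⟩ := hy
  have := (List.cons.inj hv).1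
  norm_num at this

/-! ### The recursion in the coordinate `i = (j + n) / 2` -/

/-- the weight of the vertex `j = 2 i - n` -/
noncomputable def w (n : ℕ) (i : ℤ) : ℝ := 1 / (4 * (i : ℝ) * ((n : ℝ) - i))

noncomputable def A (n : ℕ) : ℕ → ℕ → ℝ
  | 0, 0 => 1
  | 0, q + 1 => w n ((n : ℤ) - 2 * (q + 1)) * A n 0 q
  | k + 1, 0 => w n ((n : ℤ) + (k + 1)) * A n k 0
  | k + 1, q + 1 => w n ((n : ℤ) - 2 * (q + 1) + (k + 1)) * (A n k (q + 1) + A n (k + 1) q)

noncomputable def cw (n : ℕ) (j : ℤ) : ℝ := 1 / ((n : ℝ) ^ 2 - (j : ℝ) ^ 2)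

lemma cw_eq (n : ℕ) (i : ℤ) : cw n (2 * i - n) = w n i := by
  unfold cw w
  congr 1
  push_cast
  ring

lemma A_eq (n : ℕ) : ∀ k q : ℕ, 0 < k + q →
    w n ((n : ℤ) - 2 * q + k) * Z (cw n) (2 * ((n : ℤ) - 2 * q + k) - n) k q = A n k q := by
  intro k
  induction k with
  | zero =>
    intro q
    induction q with
    | zero => intro h; omega
    | succ q ih =>
      intro _
      cases q with
      | zero => simp [A, Z_zero_one]
      | succ q =>
        have := ih (by omega)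
        rw [Z_zero_succ, A, ← this]
        have e : 2 * ((n : ℤ) - 2 * ((q + 1 + 1 : ℕ) : ℤ) + ((0 : ℕ) : ℤ)) - n + 4
            = 2 * ((n : ℤ) - 2 * ((q + 1 : ℕ) : ℤ) + ((0 : ℕ) : ℤ)) - n := by push_cast; ring
        rw [e, cw_eq]
        congr 2
        push_cast; ring
  | succ k ihk =>
    intro q
    induction q with
    | zero =>
      intro _
      cases k with
      | zero => simp [A, Z_one_zero]
      | succ k =>
        have := ihk 0 (by omega)
        rw [Z_succ_zero, A, ← this]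
        have e : 2 * ((n : ℤ) - 2 * ((0 : ℕ) : ℤ) + ((k + 1 + 1 : ℕ) : ℤ)) - n + (-2)
            = 2 * ((n : ℤ) - 2 * ((0 : ℕ) : ℤ) + ((k + 1 : ℕ) : ℤ)) - n := by push_cast; ring
        rw [e, cw_eq]
        congr 2
    | succ q ihq =>
      intro _
      have h1 := ihk (q + 1) (by omega)
      have h2 := ihq (by omega)
      rw [Z_succ_succ, A, ← h1, ← h2]
      have e1 : 2 * ((n : ℤ) - 2 * ((q + 1 : ℕ) : ℤ) + ((k + 1 : ℕ) : ℤ)) - n + (-2)
            = 2 * ((n : ℤ) - 2 * ((q + 1 : ℕ) : ℤ) + ((k : ℕ) : ℤ)) - n := by push_cast; ring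
      have e2 : 2 * ((n : ℤ) - 2 * ((q + 1 : ℕ) : ℤ) + ((k + 1 : ℕ) : ℤ)) - n + 4
            = 2 * ((n : ℤ) - 2 * ((q : ℕ) : ℤ) + ((k + 1 : ℕ) : ℤ)) - n := by push_cast; ring
      rw [e1, e2, cw_eq, cw_eq]
      congr 2

lemma h₁_eq (n : ℕ) (x : List ℤ) : h₁ n x = H (cw n) (-(n : ℤ)) x := rfl

lemma sum_eq_of_counts (x : List ℤ) (hx : ∀ s ∈ x, s = -2 ∨ s = 4) :
    x.sum = -2 * (x.count (-2) : ℤ) + 4 * (x.count 4 : ℤ) := by
  induction x with
  | nil => simp
  | cons a l ih =>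
    have ih' := ih (fun s hs => hx s (List.mem_cons_of_mem _ hs))
    rcases hx a List.mem_cons_self with h | h
    · subst h
      rw [List.sum_cons, ih', List.count_cons_self, List.count_cons_of_ne (by norm_num)]
      push_cast; ring
    · subst h
      rw [List.sum_cons, ih', List.count_cons_self, List.count_cons_of_ne (by norm_num)]
      push_cast; ring

lemma B_eq_Z (m : ℕ) : B 3 (2 * m + 1) = Z (cw (2 * m + 1)) (-((2 * m + 1 : ℕ) : ℤ)) 3 (m + 2) := by
  unfold B Z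
  apply finsum_mem_eq_sum_of_inter_support_eq
  ext x
  simp only [Set.mem_inter_iff, Set.mem_ofPred_eq, Function.mem_support, Finset.mem_coe]
  constructor
  · rintro ⟨⟨h1, h2, h3, h4, h5⟩, h6⟩
    refine ⟨?_, h6⟩
    rw [mem_L]
    refine ⟨h2, h4, ?_⟩
    have := sum_eq_of_counts x h2
    rw [h3, h4] at this
    push_cast at this
    omega
  · rintro ⟨h1, h2⟩
    refine ⟨?_, h2⟩
    rw [mem_L] at h1
    obtain ⟨h3, h4, h5⟩ := h1
    have hlen : x.count (-2) + x.count 4 ≤ x.length := by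
      clear h2 h4 h5
      induction x with
      | nil => simp
      | cons a l ih =>
        have ih' := ih (fun s hs => h3 s (List.mem_cons_of_mem _ hs))
        rcases h3 a List.mem_cons_self with h | h
        · subst h
          rw [List.count_cons_self, List.count_cons_of_ne (by norm_num), List.length_cons]
          omega
        · subst h
          rw [List.count_cons_self, List.count_cons_of_ne (by norm_num), List.length_cons]
          omega
    refine ⟨by omega, h3, ?_, h4, ?_⟩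
    · rw [sum_eq_of_counts x h3, h4, h5]
      push_cast; ring
    · intro t ht1 ht2
      have hne : ∀ t ∈ Finset.Ico 1 x.length,
          1 / (((2 * m + 1 : ℕ) : ℝ) ^ 2 - (vertex (2 * m + 1) x t : ℝ) ^ 2) ≠ 0 := by
        have := Finset.prod_ne_zero_iff.mp h2
        exact this
      have := hne t (Finset.mem_Ico.mpr ⟨ht1, ht2⟩)
      constructor
      · intro h
        apply this
        rw [h]
        simp
      · intro h
        apply this
        rw [h]
        push_cast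
        rw [one_div, inv_eq_zero]
        ring

lemma B_eq_A (m : ℕ) : B 3 (2 * m + 1) = A (2 * m + 1) 2 (m + 2) + A (2 * m + 1) 3 (m + 1) := by
  rw [B_eq_Z, Z_succ_succ, ← A_eq _ 2 (m + 2) (by omega), ← A_eq _ 3 (m + 1) (by omega)]
  have e1 : (-((2 * m + 1 : ℕ) : ℤ)) + (-2)
      = 2 * (((2 * m + 1 : ℕ) : ℤ) - 2 * ((m + 2 : ℕ) : ℤ) + ((2 : ℕ) : ℤ)) - (2 * m + 1 : ℕ) := by
    push_cast; ring
  have e2 : (-((2 * m + 1 : ℕ) : ℤ)) + 4
      = 2 * (((2 * m + 1 : ℕ) : ℤ) - 2 * ((m + 1 : ℕ) : ℤ) + ((3 : ℕ) : ℤ)) - (2 * m + 1 : ℕ) := by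
    push_cast; ring
  rw [e1, e2, cw_eq, cw_eq]


/-! ### Cutting the walks at the second step `-2` -/

/-- shifted sequence: `0` at `0`, `A n k q` at `q + 1` -/
noncomputable def Ap (n k : ℕ) : ℕ → ℝ
  | 0 => 0
  | q + 1 => A n k q

lemma A_zero_succ (n q : ℕ) : A n 0 (q + 1) = w n ((n : ℤ) - 2 * (q + 1)) * A n 0 q := by
  rw [A]

lemma A_succ (n k q : ℕ) :
    A n (k + 1) q = w n ((n : ℤ) - 2 * q + (k + 1)) * (A n k q + Ap n (k + 1) q) := by
  cases q with
  | zero => simp [A, Ap]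
  | succ q => simp [A, Ap]

lemma w_symm (n : ℕ) (i j : ℤ) (h : i + j = n) : w n i = w n j := by
  unfold w
  have hi : (i : ℝ) = n - j := by
    have : i = n - j := by omega
    rw [this]; push_cast; ring
  rw [hi]
  congr 1
  ring

lemma cut (m : ℕ) : ∀ s : ℕ, s ≤ m + 2 →
    A (2 * m + 1) 2 (m + 2) + Ap (2 * m + 1) 3 (m + 2) =
      ∑ i ∈ range s, A (2 * m + 1) 1 i * A (2 * m + 1) 1 (m + 2 - i) +
        Ap (2 * m + 1) 1 s * A (2 * m + 1) 2 (m + 2 - s) +
        A (2 * m + 1) 0 s * (A (2 * m + 1) 2 (m + 2 - s) + Ap (2 * m + 1) 3 (m + 2 - s)) := by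
  intro s
  induction s with
  | zero =>
    intro _
    simp [Ap, A]
  | succ s ih =>
    intro hs
    rw [ih (by omega), Finset.sum_range_succ]
    obtain ⟨q, hq⟩ : ∃ q, m + 2 = s + 1 + q := ⟨m + 2 - (s + 1), by omega⟩
    have e1 : m + 2 - s = q + 1 := by omega
    have e2 : m + 2 - (s + 1) = q := by omega
    rw [e1, e2]
    -- unfold T at q+1
    have hA3 : Ap (2 * m + 1) 3 (q + 1) =
        w (2 * m + 1) (((2 * m + 1 : ℕ) : ℤ) - 2 * q + 3) *
          (A (2 * m + 1) 2 q + Ap (2 * m + 1) 3 q) := by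
      show A (2 * m + 1) (2 + 1) q = _
      rw [A_succ]
      norm_num
    have hA0 : A (2 * m + 1) 0 (s + 1) =
        w (2 * m + 1) (((2 * m + 1 : ℕ) : ℤ) - 2 * q + 3) * A (2 * m + 1) 0 s := by
      rw [A_zero_succ]
      congr 1
      apply w_symm
      push_cast
      have : (m : ℤ) + 2 = s + 1 + q := by exact_mod_cast hq
      linarith
    have hA2 : A (2 * m + 1) 2 (q + 1) =
        w (2 * m + 1) (((2 * m + 1 : ℕ) : ℤ) - 2 * s + 1) *
          (A (2 * m + 1) 1 (q + 1) + A (2 * m + 1) 2 q) := by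
      have h := A_succ (2 * m + 1) 1 (q + 1)
      rw [show (1 + 1 : ℕ) = 2 from rfl] at h
      rw [h]
      congr 1
      apply w_symm
      push_cast
      have : (m : ℤ) + 2 = s + 1 + q := by exact_mod_cast hq
      linarith
    have hA1 : A (2 * m + 1) 1 s =
        w (2 * m + 1) (((2 * m + 1 : ℕ) : ℤ) - 2 * s + 1) *
          (A (2 * m + 1) 0 s + Ap (2 * m + 1) 1 s) := by
      have h := A_succ (2 * m + 1) 0 s
      rw [show (0 + 1 : ℕ) = 1 from rfl] at h
      rw [h]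
      norm_num
    have hAp1 : Ap (2 * m + 1) 1 (s + 1) = A (2 * m + 1) 1 s := rfl
    rw [hAp1, hA3, hA0]
    have key : (A (2 * m + 1) 0 s + Ap (2 * m + 1) 1 s) * A (2 * m + 1) 2 (q + 1) =
        A (2 * m + 1) 1 s * (A (2 * m + 1) 1 (q + 1) + A (2 * m + 1) 2 q) := by
      rw [hA2, hA1]; ring
    linear_combination key

lemma B_eq_conv (m : ℕ) : B 3 (2 * m + 1) =
    ∑ i ∈ range (m + 3), A (2 * m + 1) 1 i * A (2 * m + 1) 1 (m + 2 - i) := by
  rw [B_eq_A]
  have h := cut m (m + 2) le_rfl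
  have h0 : Ap (2 * m + 1) 3 (m + 2) = A (2 * m + 1) 3 (m + 1) := rfl
  rw [h0] at h
  rw [h, Finset.sum_range_succ _ (m + 2)]
  simp only [Nat.sub_self]
  have h2 : A (2 * m + 1) 2 0 =
      w (2 * m + 1) (((2 * m + 1 : ℕ) : ℤ) - 2 * (m + 2 : ℕ) + 1) * A (2 * m + 1) 1 0 := by
    have h := A_succ (2 * m + 1) 1 0
    rw [show (1 + 1 : ℕ) = 2 from rfl] at h
    rw [h]
    simp only [Ap, add_zero]
    congr 1
    apply w_symm
    push_cast
    ring
  have h1 : A (2 * m + 1) 1 (m + 2) =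
      w (2 * m + 1) (((2 * m + 1 : ℕ) : ℤ) - 2 * (m + 2 : ℕ) + 1) *
        (A (2 * m + 1) 0 (m + 2) + Ap (2 * m + 1) 1 (m + 2)) := by
    have h := A_succ (2 * m + 1) 0 (m + 2)
    rw [show (0 + 1 : ℕ) = 1 from rfl] at h
    rw [h]
    norm_num
  have h3 : Ap (2 * m + 1) 3 0 = 0 := rfl
  rw [h3, h1, h2]
  ring


/-! ### Closed forms -/

lemma w_even (m q : ℕ) : w (2 * m + 1) (((2 * m + 1 : ℕ) : ℤ) - 2 * (q + 1)) =
    1 / (8 * ((q : ℝ) + 1) * (2 * m - 1 - 2 * q)) := by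
  unfold w
  push_cast
  congr 1
  ring

lemma A0_succ (m q : ℕ) : A (2 * m + 1) 0 (q + 1) =
    1 / (8 * ((q : ℝ) + 1) * (2 * m - 1 - 2 * q)) * A (2 * m + 1) 0 q := by
  rw [A_zero_succ, w_even]

lemma odd_ne (m q : ℕ) : (2 * (m : ℝ) - 1 - 2 * q) ≠ 0 := by
  intro h
  have h' : (2 * (m : ℤ) - 1 - 2 * q) = 0 := by exact_mod_cast h
  omega

lemma A0_pred (m q : ℕ) : A (2 * m + 1) 0 q =
    (8 * ((q : ℝ) + 1) * (2 * m - 1 - 2 * q)) * A (2 * m + 1) 0 (q + 1) := by
  rw [A0_succ]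
  have h : (8 * ((q : ℝ) + 1) * (2 * m - 1 - 2 * q)) ≠ 0 :=
    mul_ne_zero (by positivity) (odd_ne m q)
  rw [← mul_assoc, mul_one_div_cancel h, one_mul]

lemma A1_closed (m : ℕ) (hm : 1 ≤ m) : ∀ q : ℕ, q ≤ m →
    A (2 * m + 1) 1 q = A (2 * m + 1) 0 q * ((2 * q - m) / (8 * m * (m + 1))) := by
  intro q
  have hm0 : (m : ℝ) ≠ 0 := by positivity
  have hm1 : (m : ℝ) + 1 ≠ 0 := by positivity
  induction q with
  | zero =>
    intro _
    have h := A_succ (2 * m + 1) 0 0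
    rw [show (0 + 1 : ℕ) = 1 from rfl] at h
    rw [h]
    have hw : w (2 * m + 1) (((2 * m + 1 : ℕ) : ℤ) - 2 * ((0 : ℕ) : ℤ) + (((0 : ℕ) : ℤ) + 1)) =
        1 / (- (8 * ((m : ℝ) + 1))) := by
      unfold w
      push_cast
      congr 1
      ring
    rw [hw]
    simp only [A, Ap]
    push_cast
    field_simp
    ring
  | succ q ih =>
    intro hq
    have ih' := ih (by omega)
    have h := A_succ (2 * m + 1) 0 (q + 1)
    rw [show (0 + 1 : ℕ) = 1 from rfl] at h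
    rw [h]
    have hAp : Ap (2 * m + 1) 1 (q + 1) = A (2 * m + 1) 1 q := rfl
    rw [hAp, ih', A0_pred m q]
    have hw : w (2 * m + 1) (((2 * m + 1 : ℕ) : ℤ) - 2 * ((q + 1 : ℕ) : ℤ) + (((0 : ℕ) : ℤ) + 1)) =
        1 / (8 * ((m : ℝ) - q) * (2 * q + 1)) := by
      unfold w
      push_cast
      congr 1
      ring
    rw [hw]
    have h1 : (m : ℝ) - q ≠ 0 := by
      have : ((q : ℝ) + 1) ≤ m := by exact_mod_cast hq
      intro h0
      linarith
    have h2 : 2 * (q : ℝ) + 1 ≠ 0 := by positivity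
    push_cast
    field_simp
    ring

lemma A1_mid (m : ℕ) : A (2 * m + 1) 1 (m + 1) = 0 := by
  have h := A_succ (2 * m + 1) 0 (m + 1)
  rw [show (0 + 1 : ℕ) = 1 from rfl] at h
  rw [h]
  have hw : w (2 * m + 1) (((2 * m + 1 : ℕ) : ℤ) - 2 * ((m + 1 : ℕ) : ℤ) + (((0 : ℕ) : ℤ) + 1)) =
      0 := by
    unfold w
    push_cast
    have : (2 * (m : ℝ) + 1 - 2 * (m + 1) + 1) = 0 := by ring
    rw [this]
    simp
  rw [hw, zero_mul]

lemma A1_last (m : ℕ) : A (2 * m + 1) 1 (m + 2) =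
    - A (2 * m + 1) 0 (m + 2) / (8 * (2 * m + 3)) := by
  have h := A_succ (2 * m + 1) 0 (m + 2)
  rw [show (0 + 1 : ℕ) = 1 from rfl] at h
  rw [h]
  have hAp : Ap (2 * m + 1) 1 (m + 2) = A (2 * m + 1) 1 (m + 1) := rfl
  rw [hAp, A1_mid, add_zero]
  have hw : w (2 * m + 1) (((2 * m + 1 : ℕ) : ℤ) - 2 * ((m + 2 : ℕ) : ℤ) + (((0 : ℕ) : ℤ) + 1)) =
      - (1 / (8 * (2 * m + 3))) := by
    unfold w
    push_cast
    rw [← one_div_neg_eq_neg_one_div]
    congr 1
    ring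
  rw [hw]
  ring

/-- the telescoping identity -/
lemma telescope (m : ℕ) (hm : 2 ≤ m) : ∀ K : ℕ, K ≤ m + 2 →
    (∑ i ∈ range K, (4 - (2 * (i : ℝ) - (m + 2)) ^ 2) *
      (A (2 * m + 1) 0 i * A (2 * m + 1) 0 (m + 2 - i))) =
    (K : ℝ) * (2 * K - 1 - 2 * m) * (2 * K - m - 3) *
      ((((m : ℝ) + 2) ^ 2 - 3 * (m + 2) + 8) * (2 * K - m - 3) ^ 2 -
        (13 * ((m : ℝ) + 2) ^ 2 - 39 * (m + 2) + 32)) /
      (3 * (m + 2) * (m + 1) * m * (m - 1)) *
      (A (2 * m + 1) 0 K * A (2 * m + 1) 0 (m + 2 - K)) := by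
  intro K
  induction K with
  | zero => intro _; simp
  | succ K ih =>
    intro hK
    rw [Finset.sum_range_succ, ih (by omega)]
    obtain ⟨q, hq⟩ : ∃ q, m + 2 = K + 1 + q := ⟨m + 2 - (K + 1), by omega⟩
    have e1 : m + 2 - K = q + 1 := by omega
    have e2 : m + 2 - (K + 1) = q := by omega
    rw [e1, e2, A0_pred m K, A0_pred m q]
    have hqm : (q : ℝ) = m + 1 - K := by
      have : (m : ℝ) + 2 = K + 1 + q := by exact_mod_cast hq
      linarith
    rw [hqm]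
    have hm' : (2 : ℝ) ≤ m := by exact_mod_cast hm
    have h1 : (m : ℝ) - 1 ≠ 0 := by intro h; linarith
    have h2 : (m : ℝ) ≠ 0 := by positivity
    have h3 : (m : ℝ) + 1 ≠ 0 := by positivity
    have h4 : (m : ℝ) + 2 ≠ 0 := by positivity
    push_cast
    field_simp
    ring

lemma natural_sum (m : ℕ) (hm : 2 ≤ m) :
    (∑ i ∈ range (m + 3), (4 - (2 * (i : ℝ) - (m + 2)) ^ 2) *
      (A (2 * m + 1) 0 i * A (2 * m + 1) 0 (m + 2 - i))) = 0 := by
  rw [Finset.sum_range_succ, telescope m hm (m + 2) le_rfl]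
  have hm' : (2 : ℝ) ≤ m := by exact_mod_cast hm
  have h1 : (m : ℝ) - 1 ≠ 0 := by intro h; linarith
  have h2 : (m : ℝ) ≠ 0 := by positivity
  have h3 : (m : ℝ) + 1 ≠ 0 := by positivity
  have h4 : (m : ℝ) + 2 ≠ 0 := by positivity
  push_cast
  field_simp
  ring

lemma A0_m (m : ℕ) : ∀ q : ℕ, q ≤ m →
    A (2 * m + 1) 0 q * (4 ^ q * q.factorial * (m - q).factorial * (2 * m).factorial) =
      (2 * (m - q)).factorial * m.factorial := by
  intro q
  induction q with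
  | zero =>
    intro _
    simp [A]
    ring
  | succ q ih =>
    intro hq
    have ih' := ih (by omega)
    obtain ⟨r, hr⟩ : ∃ r, m = q + 1 + r := ⟨m - (q + 1), by omega⟩
    have e1 : m - q = r + 1 := by omega
    have e2 : m - (q + 1) = r := by omega
    rw [e1, A0_pred m q] at ih'
    rw [e2]
    have e3 : 2 * (r + 1) = 2 * r + 1 + 1 := by ring
    rw [e3, Nat.factorial_succ (2 * r + 1), Nat.factorial_succ (2 * r), Nat.factorial_succ r] at ih'
    rw [Nat.factorial_succ q]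
    have hrm : (m : ℝ) = q + 1 + r := by exact_mod_cast hr
    push_cast at ih' ⊢
    have hpos : (2 * ((r : ℝ) + 1) * (2 * r + 1)) ≠ 0 := by positivity
    apply mul_left_cancel₀ hpos
    have h5 : (2 * (m : ℝ) - 1 - 2 * q) = 2 * r + 1 := by rw [hrm]; ring
    rw [h5] at ih'
    rw [pow_succ]
    linear_combination ih'

lemma A0_m' (m : ℕ) : A (2 * m + 1) 0 m = 1 / (4 ^ m * (2 * m).factorial) := by
  have h := A0_m m m le_rfl
  simp only [Nat.sub_self, Nat.mul_zero, Nat.factorial_zero, Nat.cast_one, one_mul] at h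
  have h1 : (m.factorial : ℝ) ≠ 0 := by positivity
  have h2 : ((2 * m).factorial : ℝ) ≠ 0 := by positivity
  rw [eq_div_iff (by positivity)]
  apply mul_left_cancel₀ h1
  linear_combination h

lemma A1_nat (m : ℕ) (hm : 1 ≤ m) (i : ℕ) (h1 : 2 ≤ i) (h2 : i ≤ m) :
    A (2 * m + 1) 1 i * A (2 * m + 1) 1 (m + 2 - i) =
      (4 - (2 * (i : ℝ) - (m + 2)) ^ 2) *
      (A (2 * m + 1) 0 i * A (2 * m + 1) 0 (m + 2 - i)) / (64 * m ^ 2 * (m + 1) ^ 2) := by
  rw [A1_closed m hm i h2, A1_closed m hm (m + 2 - i) (by omega)]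
  have hc : ((m + 2 - i : ℕ) : ℝ) = m + 2 - i := by
    rw [Nat.cast_sub (by omega)]; push_cast; ring
  rw [hc]
  have hm0 : (m : ℝ) ≠ 0 := by positivity
  have hm1 : (m : ℝ) + 1 ≠ 0 := by positivity
  field_simp
  ring

theorem exact_formula (m : ℕ) (hm : 2 ≤ m) :
    B 3 (2 * m + 1) =
      3 * ((m : ℝ) + 2) /
        (1024 * 4 ^ m * (m : ℝ) ^ 2 * ((m : ℝ) + 1) ^ 3 * (2 * m - 1) * (2 * m + 3) *
          (Nat.factorial (2 * m) : ℝ)) := by
  rw [B_eq_conv]
  have hnat := natural_sum m hm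
  -- split off the four boundary terms in both sums
  have split : ∀ f : ℕ → ℝ, ∑ i ∈ range (m + 3), f i =
      f 0 + f 1 + (∑ i ∈ range (m - 1), f (i + 2)) + f (m + 1) + f (m + 2) := by
    intro f
    rw [Finset.sum_range_succ, Finset.sum_range_succ]
    have : m + 1 = (m - 1) + 1 + 1 := by omega
    rw [this, Finset.sum_range_succ', Finset.sum_range_succ']
    simp only [zero_add]
    have e : ∀ x : ℕ, x + 1 + 1 = x + 2 := fun x => rfl
    simp only [e]
    have e' : m - 1 + 2 = m + 1 := by omega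
    rw [e']
    ring
  rw [split] at hnat ⊢
  have hmid : ∑ i ∈ range (m - 1), A (2 * m + 1) 1 (i + 2) * A (2 * m + 1) 1 (m + 2 - (i + 2)) =
      (∑ i ∈ range (m - 1), (4 - (2 * ((i + 2 : ℕ) : ℝ) - (m + 2)) ^ 2) *
      (A (2 * m + 1) 0 (i + 2) * A (2 * m + 1) 0 (m + 2 - (i + 2)))) /
        (64 * m ^ 2 * (m + 1) ^ 2) := by
    rw [Finset.sum_div]
    apply Finset.sum_congr rfl
    intro i hi
    rw [Finset.mem_range] at hi
    rw [A1_nat m (by omega) (i + 2) (by omega) (by omega)]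
  rw [hmid]
  have e1 : m + 2 - 1 = m + 1 := by omega
  have e2 : m + 2 - (m + 1) = 1 := by omega
  have e3 : m + 2 - (m + 2) = 0 := by omega
  have e4 : m + 2 - 0 = m + 2 := by omega
  rw [e1, e2, e3, e4] at hnat
  rw [e1, e2, e3, e4, A1_mid, A1_last]
  have hA00 : A (2 * m + 1) 0 0 = 1 := by rw [A]
  have hA10 := A1_closed m (by omega) 0 (by omega)
  rw [hA10, hA00]
  rw [hA00] at hnat
  have ha1 : A (2 * m + 1) 0 1 = 1 / (8 * (2 * m - 1)) := by
    have := A0_succ m 0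
    rw [zero_add] at this
    rw [this, hA00]
    push_cast
    ring
  have ham1 : A (2 * m + 1) 0 (m + 1) = - (1 / (8 * (m + 1))) * A (2 * m + 1) 0 m := by
    rw [A0_succ m m]
    have hm1 : (m : ℝ) + 1 ≠ 0 := by positivity
    have : (2 * (m : ℝ) - 1 - 2 * m) = -1 := by ring
    rw [this]
    field_simp
  have ham2 : A (2 * m + 1) 0 (m + 2) = - (1 / (24 * (m + 2))) * A (2 * m + 1) 0 (m + 1) := by
    rw [A0_succ m (m + 1)]
    have hm1 : (m : ℝ) + 2 ≠ 0 := by positivity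
    have : (2 * (m : ℝ) - 1 - 2 * ((m + 1 : ℕ) : ℝ)) = -3 := by push_cast; ring
    rw [this]
    push_cast
    have e : (m : ℝ) + 1 + 1 = m + 2 := by ring
    rw [e]
    field_simp
    ring
  rw [ham2, ham1, ha1, A0_m'] at hnat
  rw [ham2, ham1, A0_m']
  set S := ∑ i ∈ range (m - 1), (4 - (2 * ((i + 2 : ℕ) : ℝ) - (m + 2)) ^ 2) *
      (A (2 * m + 1) 0 (i + 2) * A (2 * m + 1) 0 (m + 2 - (i + 2))) with hS
  have hm' : (2 : ℝ) ≤ m := by exact_mod_cast hm
  have h1 : 2 * (m : ℝ) - 1 ≠ 0 := by intro h; linarith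
  have h2 : (m : ℝ) ≠ 0 := by positivity
  have h3 : (m : ℝ) + 1 ≠ 0 := by positivity
  have h4 : (m : ℝ) + 2 ≠ 0 := by positivity
  have h5 : 2 * (m : ℝ) + 3 ≠ 0 := by positivity
  have h6 : ((2 * m).factorial : ℝ) ≠ 0 := by positivity
  have h7 : (4 : ℝ) ^ m ≠ 0 := by positivity
  push_cast at hnat ⊢
  have hS' : S = - ((4 - (2 * (0:ℝ) - (m + 2)) ^ 2) *
      (1 * (-(1 / (24 * ((m:ℝ) + 2))) * (-(1 / (8 * (m + 1))) * (1 / (4 ^ m * ((2 * m).factorial : ℝ)))))) +
      (4 - (2 * (1:ℝ) - (m + 2)) ^ 2) * (1 / (8 * (2 * m - 1)) * (-(1 / (8 * ((m:ℝ) + 1))) * (1 / (4 ^ m * ((2 * m).factorial : ℝ))))) +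
      (4 - (2 * ((m : ℝ) + 1) - (m + 2)) ^ 2) * (-(1 / (8 * ((m:ℝ) + 1))) * (1 / (4 ^ m * ((2 * m).factorial : ℝ))) * (1 / (8 * (2 * m - 1)))) +
      (4 - (2 * ((m : ℝ) + 2) - (m + 2)) ^ 2) *
      ((-(1 / (24 * ((m:ℝ) + 2))) * (-(1 / (8 * (m + 1))) * (1 / (4 ^ m * ((2 * m).factorial : ℝ))))) * 1)) := by
    linear_combination hnat
  rw [hS']
  field_simp
  ring

end Pool.Agent.Lib.MP_46c8ea_co
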